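import Pool.Agent.H77.BC.Targets

/-!
# Row E2A of the board bcp (helper77, MP_9d0bb7_lc)

A statement on subgroups of `GL_2`.
-/

set_option autoImplicit false

open Matrix

namespace Pool.Agent.H13.BCP

open Pool.Agent.H77.BC

variable {K : Type} [Field K]

/-- the two vectors form a basis -/
def Ind2 (u u' : Fin 2 → K) : Prop := u 0 * u' 1 - u 1 * u' 0 ≠ 0

theorem ind2_of {u u' : Fin 2 → K} (hu : u ≠ 0) (h : ∀ a : K, u' ≠ a • u) : Ind2 u u' := by
  intro hD
  by_cases h0 : u 0 = 0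
  · have h1 : u 1 ≠ 0 := by
      intro h1
      apply hu
      funext i
      fin_cases i
      · exact h0
      · exact h1
    apply h (u' 1 / u 1)
    funext i
    fin_cases i
    · show u' 0 = u' 1 / u 1 * u 0
      rw [h0] at hD ⊢
      have : u 1 * u' 0 = 0 := by linear_combination -hD
      rcases mul_eq_zero.1 this with h2 | h2
      · exact absurd h2 h1
      · rw [h2, mul_zero]
    · show u' 1 = u' 1 / u 1 * u 1
      field_simp
  · apply h (u' 0 / u 0)
    funext i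
    fin_cases i
    · show u' 0 = u' 0 / u 0 * u 0
      field_simp
    · show u' 1 = u' 0 / u 0 * u 1
      field_simp
      linear_combination hD

theorem Ind2.ne_smul {u u' : Fin 2 → K} (h : Ind2 u u') (a : K) : u' ≠ a • u := by
  intro he
  apply h
  rw [he]
  simp only [Pi.smul_apply, smul_eq_mul]
  ring

theorem Ind2.ne_zero {u u' : Fin 2 → K} (h : Ind2 u u') : u ≠ 0 := by
  rintro rfl
  apply h
  simp

theorem Ind2.symm {u u' : Fin 2 → K} (h : Ind2 u u') : Ind2 u' u := by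
  intro h0
  apply h
  linear_combination -h0

theorem Ind2.coord {u u' : Fin 2 → K} (h : Ind2 u u') (w : Fin 2 → K) :
    ∃ a b : K, w = a • u + b • u' := by
  unfold Ind2 at h
  refine ⟨(w 0 * u' 1 - w 1 * u' 0) / (u 0 * u' 1 - u 1 * u' 0),
    (u 0 * w 1 - u 1 * w 0) / (u 0 * u' 1 - u 1 * u' 0), ?_⟩
  funext i
  fin_cases i
  · show w 0 = (w 0 * u' 1 - w 1 * u' 0) / (u 0 * u' 1 - u 1 * u' 0) * u 0 +
      (u 0 * w 1 - u 1 * w 0) / (u 0 * u' 1 - u 1 * u' 0) * u' 0
    rw [div_mul_eq_mul_div, div_mul_eq_mul_div, ← add_div, eq_div_iff h]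
    ring
  · show w 1 = (w 0 * u' 1 - w 1 * u' 0) / (u 0 * u' 1 - u 1 * u' 0) * u 1 +
      (u 0 * w 1 - u 1 * w 0) / (u 0 * u' 1 - u 1 * u' 0) * u' 1
    rw [div_mul_eq_mul_div, div_mul_eq_mul_div, ← add_div, eq_div_iff h]
    ring

theorem Ind2.inj {u u' : Fin 2 → K} (h : Ind2 u u') {a b c d : K}
    (he : a • u + b • u' = c • u + d • u') : a = c ∧ b = d := by
  unfold Ind2 at h
  have h0 : a * u 0 + b * u' 0 = c * u 0 + d * u' 0 := congrFun he 0
  have h1 : a * u 1 + b * u' 1 = c * u 1 + d * u' 1 := congrFun he 1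
  constructor
  · have : (a - c) * (u 0 * u' 1 - u 1 * u' 0) = 0 := by
      linear_combination u' 1 * h0 - u' 0 * h1
    rcases mul_eq_zero.1 this with h2 | h2
    · exact sub_eq_zero.1 h2
    · exact absurd h2 h
  · have : (b - d) * (u 0 * u' 1 - u 1 * u' 0) = 0 := by
      linear_combination u 0 * h1 - u 1 * h0
    rcases mul_eq_zero.1 this with h2 | h2
    · exact sub_eq_zero.1 h2
    · exact absurd h2 h

theorem Ind2.exg {u u' : Fin 2 → K} (h : Ind2 u u') (x y z t : K) (hd : x * t - y * z ≠ 0) :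
    ∃ g : GL (Fin 2) K, g.val *ᵥ u = x • u + y • u' ∧ g.val *ᵥ u' = z • u + t • u' := by
  set B : Matrix (Fin 2) (Fin 2) K := !![u 0, u' 0; u 1, u' 1] with hB
  set A : Matrix (Fin 2) (Fin 2) K := !![x, z; y, t] with hA
  have hBd : B.det ≠ 0 := by
    rw [hB, det_fin_two_of]
    intro h0
    apply h
    linear_combination h0
  have hAd : A.det ≠ 0 := by
    rw [hA, det_fin_two_of]
    intro h0
    apply hd
    linear_combination h0
  have hBu : IsUnit B.det := isUnit_iff_ne_zero.2 hBd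
  have hBe : ∀ a b : K, B *ᵥ ![a, b] = a • u + b • u' := by
    intro a b
    funext i
    fin_cases i
    · simp [hB, mulVec, dotProduct, Fin.sum_univ_two]
      ring
    · simp [hB, mulVec, dotProduct, Fin.sum_univ_two]
      ring
  have hinv : ∀ a b : K, B⁻¹ *ᵥ (a • u + b • u') = ![a, b] := by
    intro a b
    rw [← hBe, mulVec_mulVec, nonsing_inv_mul B hBu, one_mulVec]
  have hdet : (B * A * B⁻¹).det ≠ 0 := by
    rw [det_mul, det_mul, det_nonsing_inv, mul_assoc, mul_comm A.det, ← mul_assoc,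
      Ring.mul_inverse_cancel _ hBu, one_mul]
    exact hAd
  refine ⟨Matrix.GeneralLinearGroup.mkOfDetNeZero (B * A * B⁻¹) hdet, ?_, ?_⟩
  · show (B * A * B⁻¹) *ᵥ u = _
    have h1 : B⁻¹ *ᵥ u = ![1, 0] := by
      have := hinv 1 0
      rwa [one_smul, zero_smul, add_zero] at this
    rw [← mulVec_mulVec, ← mulVec_mulVec, h1, ← hBe]
    congr 1
    funext i
    fin_cases i
    · simp [hA, mulVec, dotProduct, Fin.sum_univ_two]
    · simp [hA, mulVec, dotProduct, Fin.sum_univ_two]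
  · show (B * A * B⁻¹) *ᵥ u' = _
    have h1 : B⁻¹ *ᵥ u' = ![0, 1] := by
      have := hinv 0 1
      rwa [one_smul, zero_smul, zero_add] at this
    rw [← mulVec_mulVec, ← mulVec_mulVec, h1, ← hBe]
    congr 1
    funext i
    fin_cases i
    · simp [hA, mulVec, dotProduct, Fin.sum_univ_two]
    · simp [hA, mulVec, dotProduct, Fin.sum_univ_two]

/-- `v'` is the partner of `v` -/
def PP (H : Subgroup (GL (Fin 2) K)) (v v' : Fin 2 → K) : Prop :=
  Ind2 v v' ∧ H ⊓ Pv v = Pv v ⊓ Pv v'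

theorem Pv_smul {v : Fin 2 → K} {c : K} (hc : c ≠ 0) : Pv (c • v) = Pv v := by
  ext g
  rw [mem_Pv, mem_Pv]
  constructor
  · rintro ⟨a, ha⟩
    refine ⟨a, ?_⟩
    rw [mulVec_smul, smul_comm] at ha
    exact smul_right_injective _ hc ha
  · rintro ⟨a, ha⟩
    refine ⟨a, ?_⟩
    rw [mulVec_smul, ha, smul_comm]

theorem PP.smul_right {H : Subgroup (GL (Fin 2) K)} {v v' : Fin 2 → K} (h : PP H v v') {c : K}
    (hc : c ≠ 0) : PP H v (c • v') := by
  refine ⟨?_, ?_⟩
  · intro h0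
    apply h.1
    simp only [Pi.smul_apply, smul_eq_mul] at h0
    have : c * (v 0 * v' 1 - v 1 * v' 0) = 0 := by linear_combination h0
    exact (mul_eq_zero.1 this).resolve_left hc
  · rw [Pv_smul hc]
    exact h.2

theorem PP.smul_left {H : Subgroup (GL (Fin 2) K)} {v v' : Fin 2 → K} (h : PP H v v') {c : K}
    (hc : c ≠ 0) : PP H (c • v) v' := by
  refine ⟨?_, ?_⟩
  · intro h0
    apply h.1
    simp only [Pi.smul_apply, smul_eq_mul] at h0
    have : c * (v 0 * v' 1 - v 1 * v' 0) = 0 := by linear_combination h0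
    exact (mul_eq_zero.1 this).resolve_left hc
  · rw [Pv_smul hc]
    exact h.2

/-- the diagonal maps are in `H` -/
theorem PP.mem {H : Subgroup (GL (Fin 2) K)} {v v' : Fin 2 → K} (h : PP H v v')
    {g : GL (Fin 2) K} (h1 : g ∈ Pv v) (h2 : g ∈ Pv v') : g ∈ H := by
  have : g ∈ H ⊓ Pv v := by
    rw [h.2]
    exact ⟨h1, h2⟩
  exact this.1

theorem PP.uniq {H : Subgroup (GL (Fin 2) K)} (hm : ∃ m : K, m ≠ 0 ∧ m ≠ 1) {v v' v'' : Fin 2 → K}
    (h : PP H v v') (h' : PP H v v'') : ∃ c : K, c ≠ 0 ∧ v'' = c • v' := by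
  obtain ⟨m, hm0, hm1⟩ := hm
  obtain ⟨g, hg1, hg2⟩ := h.1.exg 1 0 0 m (by rw [one_mul, zero_mul, sub_zero]; exact hm0)
  rw [one_smul, zero_smul, add_zero] at hg1
  rw [zero_smul, zero_add] at hg2
  have m1 : g ∈ Pv v := ⟨1, by rw [hg1, one_smul]⟩
  have m2 : g ∈ Pv v' := ⟨m, hg2⟩
  have mH : g ∈ H := h.mem m1 m2
  have m3 : g ∈ Pv v'' := by
    have : g ∈ Pv v ⊓ Pv v'' := by
      rw [← h'.2]
      exact ⟨mH, m1⟩
    exact this.2
  obtain ⟨l, hl⟩ := m3
  obtain ⟨a, b, hab⟩ := h.1.coord v''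
  rw [hab, mulVec_add, mulVec_smul, mulVec_smul, hg1, hg2, smul_add, smul_smul, smul_smul,
    smul_smul] at hl
  obtain ⟨e1, e2⟩ := h.1.inj hl
  have hb : b ≠ 0 := by
    rintro rfl
    rw [zero_smul, add_zero] at hab
    exact h'.1.ne_smul a hab
  have hlm : l = m := by
    have : (l - m) * b = 0 := by linear_combination -e2
    exact sub_eq_zero.1 ((mul_eq_zero.1 this).resolve_right hb)
  have ha : a = 0 := by
    rw [hlm] at e1
    have : (1 - m) * a = 0 := by linear_combination e1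
    exact (mul_eq_zero.1 this).resolve_left (sub_ne_zero.2 (Ne.symm hm1))
  refine ⟨b, hb, ?_⟩
  rw [hab, ha, zero_smul, zero_add]

theorem PP.symm {H : Subgroup (GL (Fin 2) K)} (hm : ∃ m : K, m ≠ 0 ∧ m ≠ 1)
    (hex : ∀ v : Fin 2 → K, v ≠ 0 → ∃ v', PP H v v') {v v' : Fin 2 → K}
    (h : PP H v v') : PP H v' v := by
  obtain ⟨m, hm0, hm1⟩ := hm
  obtain ⟨v'', h'⟩ := hex v' h.1.symm.ne_zero
  obtain ⟨g, hg1, hg2⟩ := h.1.exg 1 0 0 m (by rw [one_mul, zero_mul, sub_zero]; exact hm0)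
  rw [one_smul, zero_smul, add_zero] at hg1
  rw [zero_smul, zero_add] at hg2
  have m1 : g ∈ Pv v := ⟨1, by rw [hg1, one_smul]⟩
  have m2 : g ∈ Pv v' := ⟨m, hg2⟩
  have mH : g ∈ H := h.mem m1 m2
  have m3 : g ∈ Pv v'' := by
    have : g ∈ Pv v' ⊓ Pv v'' := by
      rw [← h'.2]
      exact ⟨mH, m2⟩
    exact this.2
  obtain ⟨l, hl⟩ := m3
  obtain ⟨a, b, hab⟩ := h.1.coord v''
  rw [hab, mulVec_add, mulVec_smul, mulVec_smul, hg1, hg2, smul_add, smul_smul, smul_smul,
    smul_smul] at hl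
  obtain ⟨e1, e2⟩ := h.1.inj hl
  have ha : a ≠ 0 := by
    rintro rfl
    rw [zero_smul, zero_add] at hab
    exact h'.1.ne_smul b hab
  have hl1 : l = 1 := by
    have : (l - 1) * a = 0 := by linear_combination -e1
    exact sub_eq_zero.1 ((mul_eq_zero.1 this).resolve_right ha)
  have hb : b = 0 := by
    rw [hl1] at e2
    have : (1 - m) * b = 0 := by linear_combination -e2
    exact (mul_eq_zero.1 this).resolve_left (sub_ne_zero.2 (Ne.symm hm1))
  have hv : v'' = a • v := by rw [hab, hb, zero_smul, add_zero]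
  have h2 := h'.smul_right (inv_ne_zero ha)
  rwa [hv, smul_smul, inv_mul_cancel₀ ha, one_smul] at h2

theorem mem_Pv_mul {h g : GL (Fin 2) K} {v : Fin 2 → K} :
    g ∈ Pv (h.val *ᵥ v) ↔ h⁻¹ * g * h ∈ Pv v := by
  rw [mem_Pv, mem_Pv]
  have hinv : (h⁻¹).val * h.val = 1 := by rw [← Units.val_mul, inv_mul_cancel, Units.val_one]
  have hinv' : h.val * (h⁻¹).val = 1 := by rw [← Units.val_mul, mul_inv_cancel, Units.val_one]
  constructor
  · rintro ⟨a, ha⟩
    refine ⟨a, ?_⟩
    rw [Units.val_mul, Units.val_mul, ← mulVec_mulVec, ← mulVec_mulVec, ha, mulVec_smul,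
      mulVec_mulVec, hinv, one_mulVec]
  · rintro ⟨a, ha⟩
    refine ⟨a, ?_⟩
    rw [Units.val_mul, Units.val_mul, ← mulVec_mulVec, ← mulVec_mulVec] at ha
    have := congrArg (fun w => h.val *ᵥ w) ha
    rw [mulVec_mulVec, hinv', one_mulVec, mulVec_smul] at this
    exact this

theorem PP.map {H : Subgroup (GL (Fin 2) K)} {v v' : Fin 2 → K} (h : PP H v v')
    {g : GL (Fin 2) K} (hg : g ∈ H) : PP H (g.val *ᵥ v) (g.val *ᵥ v') := by
  have hinv : (g⁻¹).val * g.val = 1 := by rw [← Units.val_mul, inv_mul_cancel, Units.val_one]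
  refine ⟨?_, ?_⟩
  · apply ind2_of
    · intro h0
      apply h.1.ne_zero
      have := congrArg (fun w => (g⁻¹).val *ᵥ w) h0
      rwa [mulVec_mulVec, hinv, one_mulVec, mulVec_zero] at this
    · intro a ha
      apply h.1.ne_smul a
      have := congrArg (fun w => (g⁻¹).val *ᵥ w) ha
      rwa [mulVec_smul, mulVec_mulVec, mulVec_mulVec, hinv, one_mulVec, one_mulVec] at this
  · ext x
    rw [Subgroup.mem_inf, Subgroup.mem_inf, mem_Pv_mul, mem_Pv_mul]
    have h1 : x ∈ H ↔ g⁻¹ * x * g ∈ H := by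
      constructor
      · intro hx
        exact H.mul_mem (H.mul_mem (H.inv_mem hg) hx) hg
      · intro hx
        have := H.mul_mem (H.mul_mem hg hx) (H.inv_mem hg)
        have e : g * (g⁻¹ * x * g) * g⁻¹ = x := by group
        rwa [e] at this
    rw [h1, ← Subgroup.mem_inf, ← Subgroup.mem_inf, h.2]

theorem pf_E2A : E2A := by
  intro K _ _ H hall
  have hinf : Infinite K := inferInstance
  have hm : ∃ m : K, m ≠ 0 ∧ m ≠ 1 := by
    classical
    obtain ⟨m, hm⟩ := Infinite.exists_notMem_finset ({0, 1} : Finset K)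
    rw [Finset.mem_insert, Finset.mem_singleton, not_or] at hm
    exact ⟨m, hm⟩
  have hex : ∀ v : Fin 2 → K, v ≠ 0 → ∃ v', PP H v v' := by
    intro v hv
    obtain ⟨v', h1, h2⟩ := hall v hv
    exact ⟨v', ind2_of hv h1, h2⟩
  have hv0 : (![1, 0] : Fin 2 → K) ≠ 0 := by
    intro h
    have := congrFun h 0
    simp at this
  obtain ⟨v', hP⟩ := hex _ hv0
  set v : Fin 2 → K := ![1, 0] with hvdef
  have hI := hP.1
  have hS := hP.symm hm hex
  -- the diagonal maps
  have hdiag : ∀ x y : K, x ≠ 0 → y ≠ 0 → ∃ g ∈ H, g.val *ᵥ v = x • v ∧ g.val *ᵥ v' = y • v' := by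
    intro x y hx hy
    obtain ⟨g, hg1, hg2⟩ := hI.exg x 0 0 y (by
      rw [zero_mul, sub_zero]
      exact mul_ne_zero hx hy)
    rw [zero_smul, add_zero] at hg1
    rw [zero_smul, zero_add] at hg2
    exact ⟨g, hP.mem ⟨x, hg1⟩ ⟨y, hg2⟩, hg1, hg2⟩
  -- the partner of `v + v'`
  have hw0 : (1 : K) • v + (1 : K) • v' ≠ 0 := by
    intro h
    have h2 : (1 : K) • v + (1 : K) • v' = (0 : K) • v + (0 : K) • v' := by
      rw [h, zero_smul, zero_smul, add_zero]
    exact one_ne_zero (hI.inj h2).1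
  obtain ⟨w', hW⟩ := hex _ hw0
  obtain ⟨α, β, hw'⟩ := hI.coord w'
  have hα : α ≠ 0 := by
    rintro rfl
    rw [zero_smul, zero_add] at hw'
    have hβ : β ≠ 0 := by
      rintro rfl
      rw [zero_smul] at hw'
      exact hW.1.symm.ne_zero hw'
    have h1 := hW.smul_right (inv_ne_zero hβ)
    rw [hw', inv_smul_smul₀ hβ] at h1
    obtain ⟨c, -, hc⟩ := hS.uniq hm (h1.symm hm hex)
    have h2 : (1 : K) • v + (1 : K) • v' = c • v + (0 : K) • v' := by
      rw [zero_smul, add_zero]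
      exact hc
    exact one_ne_zero (hI.inj h2).2
  have hβ : β ≠ 0 := by
    rintro rfl
    rw [zero_smul, add_zero] at hw'
    have h1 := hW.smul_right (inv_ne_zero hα)
    rw [hw', inv_smul_smul₀ hα] at h1
    obtain ⟨c, -, hc⟩ := hP.uniq hm (h1.symm hm hex)
    have h2 : (1 : K) • v + (1 : K) • v' = (0 : K) • v + c • v' := by
      rw [zero_smul, zero_add]
      exact hc
    exact one_ne_zero (hI.inj h2).1
  obtain ⟨τ, hτ⟩ : ∃ τ : K, τ = α⁻¹ * β := ⟨_, rfl⟩
  have hτ0 : τ ≠ 0 := by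
    rw [hτ]
    exact mul_ne_zero (inv_ne_zero hα) hβ
  have hW1 : PP H ((1 : K) • v + (1 : K) • v') ((1 : K) • v + τ • v') := by
    have h1 := hW.smul_right (inv_ne_zero hα)
    rw [hw', smul_add, smul_smul, smul_smul, inv_mul_cancel₀ hα, ← hτ] at h1
    exact h1
  have hτ1 : τ ≠ 1 := by
    intro h
    rw [h] at hW1
    exact hW1.1.ne_smul 1 (one_smul K _).symm
  -- (3) for the diagonal maps
  have h3 : ∀ z : K, z ≠ 0 → PP H ((1 : K) • v + z • v') ((1 : K) • v + (τ * z) • v') := by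
    intro z hz
    obtain ⟨g, hgH, hg1, hg2⟩ := hdiag 1 z one_ne_zero hz
    have h1 := hW1.map hgH
    rw [mulVec_add, mulVec_smul, mulVec_smul, hg1, hg2, mulVec_add, mulVec_smul, mulVec_smul, hg1,
      hg2, smul_smul, smul_smul, smul_smul, one_mul, one_mul] at h1
    exact h1
  have hττ : τ * τ = 1 := by
    obtain ⟨c, -, hc⟩ := (h3 τ hτ0).uniq hm (hW1.symm hm hex)
    rw [smul_add, smul_smul, smul_smul] at hc
    obtain ⟨e1, e2⟩ := hI.inj hc
    rw [mul_one] at e1
    rw [← e1, one_mul] at e2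
    exact e2.symm
  have hτm : τ = -1 := by
    have : (τ - 1) * (τ + 1) = 0 := by linear_combination hττ
    rcases mul_eq_zero.1 this with h | h
    · exact absurd (sub_eq_zero.1 h) hτ1
    · linear_combination h
  have h20 : (2 : K) ≠ 0 := by
    intro h
    apply hτ1
    rw [hτm]
    linear_combination -h
  -- the maps with the eigenvectors `v + v'`, `v - v'`
  have hsym : ∀ x y : K, x ^ 2 ≠ y ^ 2 → ∃ g ∈ H, g.val *ᵥ v = x • v + y • v' ∧
      g.val *ᵥ v' = y • v + x • v' := by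
    intro x y hxy
    obtain ⟨g, hg1, hg2⟩ := hI.exg x y y x (by
      intro h
      apply hxy
      linear_combination h)
    refine ⟨g, ?_, hg1, hg2⟩
    apply hW1.mem
    · refine ⟨x + y, ?_⟩
      rw [mulVec_add, mulVec_smul, mulVec_smul, hg1, hg2]
      module
    · refine ⟨x - y, ?_⟩
      rw [mulVec_add, mulVec_smul, mulVec_smul, hg1, hg2, hτm]
      module
  have hfin : ∀ y : K, y ≠ 0 → y ^ 2 ≠ 1 → y ^ 2 = -1 := by
    intro y hy hy1
    obtain ⟨g, hgH, hg1, hg2⟩ := hsym 1 y (by rw [one_pow]; exact hy1.symm)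
    have h1 := hP.map hgH
    rw [hg1, hg2] at h1
    obtain ⟨c, -, hc⟩ := (h3 y hy).uniq hm h1
    rw [smul_add, smul_smul, smul_smul] at hc
    obtain ⟨e1, e2⟩ := hI.inj hc
    rw [mul_one] at e1
    rw [← e1, hτm] at e2
    linear_combination e2
  classical
  have hexy : ∃ y : K, y ≠ 0 ∧ y ^ 2 ≠ 1 ∧ y ^ 2 ≠ -1 := by
    obtain ⟨i, hi⟩ := IsAlgClosed.exists_pow_nat_eq (-1 : K) (n := 2) (by norm_num)
    obtain ⟨y, hy⟩ := Infinite.exists_notMem_finset ({0, 1, -1, i, -i} : Finset K)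
    simp only [Finset.mem_insert, Finset.mem_singleton, not_or] at hy
    obtain ⟨y0, y1, y2, y3, y4⟩ := hy
    refine ⟨y, y0, ?_, ?_⟩
    · intro h
      have : (y - 1) * (y + 1) = 0 := by linear_combination h
      rcases mul_eq_zero.1 this with h' | h'
      · exact y1 (sub_eq_zero.1 h')
      · exact y2 (by linear_combination h')
    · intro h
      have : (y - i) * (y + i) = 0 := by linear_combination h - hi
      rcases mul_eq_zero.1 this with h' | h'
      · exact y3 (sub_eq_zero.1 h')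
      · exact y4 (by linear_combination h')
  obtain ⟨y, y0, y1, y2⟩ := hexy
  exact y2 (hfin y y0 y1)

end Pool.Agent.H13.BCP
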